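import Pool.Agent.W_448win_h16.PlFinal
import Pool.Agent.W_448win_h16.E2Final

/-!
Gaussian posets in which every maximal element covers two elements: the levels above the first bad
level.
-/

namespace Pool.Agent.GaussPoset.Win

set_option linter.unusedSectionVars false

open Finset

universe u

variable {P : Type u} [Fintype P] [PartialOrder P] [DecidableEq P] {r : ℕ}

/-- every maximal element covers two elements -/
def Two0 (P : Type u) [Fintype P] [PartialOrder P] [DecidableEq P] : Prop :=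
  ∀ x : P, lev x = 0 → (dc x).card = 2

lemma mem_PD {i : ℕ} {z : P} : z ∈ PD P i ↔
    lev z = i + 2 ∧ (uc z).card = 1 ∧ ∃ w, z ⋖ w ∧ (uc w).card = 2 := by
  classical
  unfold PD
  rw [mem_filter]
  simp

lemma mem_PU {i : ℕ} {x : P} : x ∈ PU P i ↔
    lev x + 2 = i ∧ (dc x).card = 1 ∧ ∃ u, u ⋖ x ∧ (dc u).card = 2 := by
  classical
  unfold PU
  rw [mem_filter]
  simp

lemma ucv_pos {v v' y : P} (h1 : v ⋖ y) (h2 : v' ⋖ y) : 0 < ucv v v' := by
  classical
  unfold ucv
  rw [Finset.card_pos]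
  exact ⟨y, by simp [h1, h2]⟩

lemma dcv_pos {v v' w : P} (h1 : w ⋖ v) (h2 : w ⋖ v') : 0 < dcv v v' := by
  classical
  unfold dcv
  rw [Finset.card_pos]
  exact ⟨w, by simp [h1, h2]⟩

lemma exists_of_ucv {v v' : P} (h : 0 < ucv v v') : ∃ y, v ⋖ y ∧ v' ⋖ y := by
  classical
  unfold ucv at h
  rw [Finset.card_pos] at h
  obtain ⟨y, hy⟩ := h
  simp only [mem_filter, mem_univ, true_and] at hy
  exact ⟨y, hy⟩

lemma exists_of_dcv {v v' : P} (h : 0 < dcv v v') : ∃ w, w ⋖ v ∧ w ⋖ v' := by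
  classical
  unfold dcv at h
  rw [Finset.card_pos] at h
  obtain ⟨y, hy⟩ := h
  simp only [mem_filter, mem_univ, true_and] at hy
  exact ⟨y, hy⟩

lemma lev_cov (H : Gr P r) {z x : P} (h : z ⋖ x) : lev z = lev x + 1 := (H.covBy_iff.mp h).2

/-- a common upper cover gives a common lower cover -/
lemma down_of_up {i : ℕ} (hg : Good P i) {v v' y : P} (hv : lev v = i) (hv' : lev v' = i)
    (hne : v ≠ v') (h1 : v ⋖ y) (h2 : v' ⋖ y) : ∃ w, w ⋖ v ∧ w ⋖ v' := by
  have h := ucv_pos h1 h2
  rw [hg v v' hv hv' hne] at h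
  exact exists_of_dcv h

/-- a common lower cover gives a common upper cover -/
lemma up_of_down {i : ℕ} (hg : Good P i) {v v' w : P} (hv : lev v = i) (hv' : lev v' = i)
    (hne : v ≠ v') (h1 : w ⋖ v) (h2 : w ⋖ v') : ∃ y, v ⋖ y ∧ v' ⋖ y := by
  have h := dcv_pos h1 h2
  rw [← hg v v' hv hv' hne] at h
  exact exists_of_ucv h

lemma uc_unique {x a b : P} (h : (uc x).card = 1) (ha : x ⋖ a) (hb : x ⋖ b) : a = b :=
  Finset.card_le_one.mp h.le a (mem_uc.mpr ha) b (mem_uc.mpr hb)

lemma dc_unique {x a b : P} (h : (dc x).card = 1) (ha : a ⋖ x) (hb : b ⋖ x) : a = b :=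
  Finset.card_le_one.mp h.le a (mem_dc.mpr ha) b (mem_dc.mpr hb)

lemma uc_card_cases (H : Gr P r) {x : P} (h : 1 ≤ lev x) : (uc x).card = 1 ∨ (uc x).card = 2 := by
  have h1 := uc_card_le H x
  have h2 := Finset.card_pos.mpr (uc_nonempty H h)
  omega

lemma dc_card_cases {x z : P} (H : Gr P r) (h : z ⋖ x) : (dc x).card = 1 ∨ (dc x).card = 2 := by
  have h1 := dc_card_le H x
  have h2 : 0 < (dc x).card := Finset.card_pos.mpr ⟨z, mem_dc.mpr h⟩
  omega

lemma exists_other_dc {x z : P} (h : (dc x).card = 2) : ∃ z', z' ⋖ x ∧ z' ≠ z := by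
  obtain ⟨b, hb, hne⟩ := Finset.exists_mem_ne (by omega : 1 < (dc x).card) z
  exact ⟨b, mem_dc.mp hb, hne⟩

lemma exists_other_uc {x y : P} (h : (uc x).card = 2) : ∃ y', x ⋖ y' ∧ y' ≠ y := by
  obtain ⟨b, hb, hne⟩ := Finset.exists_mem_ne (by omega : 1 < (uc x).card) y
  exact ⟨b, mem_uc.mp hb, hne⟩

lemma dc_three (H : Gr P r) {x a b c : P} (ha : a ⋖ x) (hb : b ⋖ x) (hc : c ⋖ x) (hab : a ≠ b)
    (hac : a ≠ c) (hbc : b ≠ c) : False := by
  have h1 := dc_card_le H x
  have h2 : ({a, b, c} : Finset P) ⊆ dc x := by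
    intro y hy
    simp only [mem_insert, mem_singleton] at hy
    rcases hy with rfl | rfl | rfl
    · exact mem_dc.mpr ha
    · exact mem_dc.mpr hb
    · exact mem_dc.mpr hc
  have h3 := Finset.card_le_card h2
  rw [Finset.card_eq_three.mpr ⟨a, b, c, hab, hac, hbc, rfl⟩] at h3
  omega

lemma uc_three (H : Gr P r) {x a b c : P} (ha : x ⋖ a) (hb : x ⋖ b) (hc : x ⋖ c) (hab : a ≠ b)
    (hac : a ≠ c) (hbc : b ≠ c) : False := by
  have h1 := uc_card_le H x
  have h2 : ({a, b, c} : Finset P) ⊆ uc x := by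
    intro y hy
    simp only [mem_insert, mem_singleton] at hy
    rcases hy with rfl | rfl | rfl
    · exact mem_uc.mpr ha
    · exact mem_uc.mpr hb
    · exact mem_uc.mpr hc
  have h3 := Finset.card_le_card h2
  rw [Finset.card_eq_three.mpr ⟨a, b, c, hab, hac, hbc, rfl⟩] at h3
  omega

/-- level zero is good -/
theorem good_zero (H : Gr P r) : Good P 0 := by
  classical
  intro v v' hv hv' hne
  have h0 : ucv v v' = 0 := by
    by_contra h
    obtain ⟨y, h1, -⟩ := exists_of_ucv (Nat.pos_of_ne_zero h)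
    have := lev_cov H h1
    omega
  have h1 : dcv v v' = 0 := by
    by_contra h
    obtain ⟨w, h1, h2⟩ := exists_of_dcv (Nat.pos_of_ne_zero h)
    have hl := lev_cov H h1
    have h3 := (energy_one H (j := 0) (by omega)).2.2
    have h4 : ((univ.filter (fun a : P => lev a + 1 = 0)).filter (fun a => dn 0 a = 2)) = ∅ := by
      rw [Finset.filter_eq_empty_iff]
      intro a ha
      simp at ha
    rw [h4, Finset.card_empty] at h3
    have h5 := Finset.card_eq_zero.mp h3.symm
    rw [Finset.filter_eq_empty_iff] at h5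
    refine h5 (mem_lv.mpr (show lev w = 0 + 1 by omega)) ?_
    refine le_antisymm ((energy_one H (j := 0) (by omega)).2.1 w (by omega)) ?_
    unfold up
    have h6 : ({v, v'} : Finset P) ⊆ (lv P 0).filter (fun x => w < x) := by
      intro x hx
      simp only [mem_insert, mem_singleton] at hx
      rw [mem_filter, mem_lv]
      rcases hx with rfl | rfl
      · exact ⟨hv, h1.lt⟩
      · exact ⟨hv', h2.lt⟩
    have h7 := Finset.card_le_card h6
    rwa [Finset.card_pair hne] at h7
  rw [h0, h1]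

lemma up_eq_uc' (H : Gr P r) {i : ℕ} {w : P} (hw : lev w = i + 1) : up i w = (uc w).card := by
  classical
  unfold up uc
  congr 1
  ext y
  simp only [mem_filter, mem_lv, mem_univ, true_and, H.covBy_iff]
  constructor
  · rintro ⟨h1, h2⟩
    exact ⟨h2, by omega⟩
  · rintro ⟨h1, h2⟩
    exact ⟨by omega, h1⟩

lemma dn_eq_dc' (H : Gr P r) {i : ℕ} {u : P} (hu : lev u + 1 = i) : dn i u = (dc u).card := by
  classical
  unfold dn dc
  congr 1
  ext y
  simp only [mem_filter, mem_lv, mem_univ, true_and, H.covBy_iff]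
  constructor
  · rintro ⟨h1, h2⟩
    exact ⟨h2, by omega⟩
  · rintro ⟨h1, h2⟩
    exact ⟨by omega, h1⟩

/-- elements of level one have one upper cover -/
lemma uc_level_one (H : Gr P r) {x : P} (hx : lev x = 1) : (uc x).card = 1 := by
  classical
  rcases uc_card_cases H (x := x) (by omega) with h | h
  · exact h
  · exfalso
    obtain ⟨y, hy⟩ := uc_nonempty H (x := x) (by omega)
    rw [mem_uc] at hy
    obtain ⟨y', hy', hne⟩ := exists_other_uc (y := y) h
    have l1 := lev_cov H hy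
    have l2 := lev_cov H hy'
    obtain ⟨t, ht, -⟩ := up_of_down (good_zero H) (v := y) (v' := y') (by omega) (by omega)
      hne.symm hy hy'
    have l3 := lev_cov H ht
    omega

/-- the hypothesis on the size of level one -/
theorem two0_of_card (H : Gr P r) (hr : 1 ≤ r) (h : (lv P 1).card = 2 * (lv P 0).card) :
    Two0 P := by
  classical
  have h1 := dn_sum_eq_up_sum (P := P) 0
  have h2 : ∑ v ∈ lv P (0 + 1), up 0 v = (lv P 1).card := by
    rw [Finset.card_eq_sum_ones]
    refine Finset.sum_congr rfl fun v hv => ?_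
    rw [mem_lv] at hv
    rw [up_eq_uc' H hv]
    exact uc_level_one H (by omega)
  rw [h2, h] at h1
  have h3 : ∑ a ∈ lv P 0, dn (0 + 1) a = ∑ a ∈ lv P 0, 2 := by
    rw [h1, Finset.sum_const, smul_eq_mul, mul_comm]
  have h4 := (Finset.sum_eq_sum_iff_of_le (fun a ha => by
    rw [mem_lv] at ha
    exact (energy_one H (j := 0 + 1) (by omega)).1 a (by omega))).1 h3
  intro x hx
  rw [← dn_eq_dc' H (i := 0 + 1) (by omega)]
  exact h4 x (mem_lv.mpr hx)

end Pool.Agent.GaussPoset.Win
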