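import Pool.Agent.W_448g_h5.GA

/-! `PD` and `PU` are empty above the first bad level. -/

namespace Pool.Agent.GaussPoset.Win

set_option linter.unusedSectionVars false

open Finset

universe u

variable {P : Type u} [Fintype P] [PartialOrder P] [DecidableEq P] {r : ℕ}

/-- all levels less than `j` are good, every maximal element covers two elements -/
structure Pre (P : Type u) [Fintype P] [PartialOrder P] [DecidableEq P] (r j : ℕ) : Prop where
  H : Gr P r
  two : Two0 P
  hj : 1 ≤ j
  hr : j + 1 ≤ r
  good : ∀ l, l < j → Good P l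

/-- the upper cover of a single-up element is double-down -/
lemma top_dbl_aux (H : Gr P r) (two : Two0 P) {j : ℕ} (hg : ∀ l, l < j → Good P l) :
    ∀ k, 1 ≤ k → k ≤ j → (∀ i, i + 2 ≤ k → PD P i = ∅) → ∀ x y : P, lev x = k →
      (uc x).card = 1 → x ⋖ y → (dc y).card = 2 := by
  intro k
  induction k with
  | zero => intro h; omega
  | succ k ih =>
    intro _ hkj hPD x y hx hx1 hxy
    have ly := lev_cov H hxy
    rcases Nat.eq_zero_or_pos k with hk | hk
    · exact two y (by omega)
    · rcases uc_card_cases H (x := y) (by omega) with h1 | h1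
      · rcases dc_card_cases H hxy with h2 | h2
        · exfalso
          obtain ⟨t, ht⟩ := uc_nonempty H (x := y) (by omega)
          rw [mem_uc] at ht
          have h3 := ih hk (by omega) (fun i hi => hPD i (by omega)) y t (by omega) h1 ht
          obtain ⟨y', hy', hne⟩ := exists_other_dc (z := y) h3
          have l1 := lev_cov H ht
          have l2 := lev_cov H hy'
          obtain ⟨w, hw1, hw2⟩ := down_of_up (hg k (by omega)) (v := y) (v' := y') (by omega)
            (by omega) hne.symm ht hy'
          have h4 := dc_unique h2 hxy hw1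
          subst h4
          exact hne (uc_unique hx1 hw2 hxy)
        · exact h2
      · exfalso
        have h2 : x ∈ PD P (k - 1) := mem_PD.mpr ⟨by omega, hx1, y, hxy, h1⟩
        rw [hPD (k - 1) (by omega)] at h2
        exact absurd h2 (Finset.notMem_empty _)

/-- one step: `PU` -/
lemma PU_step (H : Gr P r) (two : Two0 P) {j : ℕ} (hg : ∀ l, l < j → Good P l) {i : ℕ}
    (hi : i ≤ j) (hPD : ∀ l, l < i → l < j → PD P l = ∅) : PU P i = ∅ := by
  rw [Finset.eq_empty_iff_forall_notMem]
  intro x hx
  rw [mem_PU] at hx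
  obtain ⟨hxl, hx1, u, hux, hu2⟩ := hx
  have lu := lev_cov H hux
  rcases Nat.eq_zero_or_pos (lev x) with h0 | h0
  · have := two x h0
    omega
  -- `u` is double-up
  have hu : ∃ x', u ⋖ x' ∧ x' ≠ x := by
    rcases uc_card_cases H (x := x) (by omega) with h1 | h1
    · obtain ⟨y, hy⟩ := uc_nonempty H (x := x) (by omega)
      rw [mem_uc] at hy
      have ly := lev_cov H hy
      have h2 := top_dbl_aux H two hg (lev x) h0 (by omega) (fun l hl => hPD l (by omega) (by omega))
        x y rfl h1 hy
      obtain ⟨x', hx', hne⟩ := exists_other_dc (z := x) h2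
      have l2 := lev_cov H hx'
      obtain ⟨w, hw1, hw2⟩ := down_of_up (hg (lev x) (by omega)) (v := x) (v' := x') rfl
        (by omega) hne.symm hy hx'
      have h3 := dc_unique hx1 hux hw1
      subst h3
      exact ⟨x', hw2, hne⟩
    · rcases uc_card_cases H (x := u) (by omega) with h2 | h2
      · exfalso
        have h3 : u ∈ PD P (lev x - 1) := mem_PD.mpr ⟨by omega, h2, x, hux, h1⟩
        rw [hPD (lev x - 1) (by omega) (by omega)] at h3
        exact absurd h3 (Finset.notMem_empty _)
      · exact exists_other_uc h2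
  obtain ⟨x', hux', hxx⟩ := hu
  have hu2' : (uc u).card = 2 := by
    rcases uc_card_cases H (x := u) (by omega) with h2 | h2
    · exact absurd (uc_unique h2 hux' hux) hxx
    · exact h2
  -- the lower covers of `u` are double-up
  have key : ∀ v, v ⋖ u → ∃ u', u' ≠ u ∧ v ⋖ u' ∧ u' ⋖ x' := by
    intro v hv
    have lv' := lev_cov H hv
    have h2 : (uc v).card = 2 := by
      rcases uc_card_cases H (x := v) (by omega) with h2 | h2
      · exfalso
        have h3 : v ∈ PD P (lev x) := mem_PD.mpr ⟨by omega, h2, u, hv, hu2'⟩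
        rw [hPD (lev x) (by omega) (by omega)] at h3
        exact absurd h3 (Finset.notMem_empty _)
      · exact h2
    obtain ⟨u', hu', hne⟩ := exists_other_uc (y := u) h2
    have l1 := lev_cov H hu'
    obtain ⟨y, hy1, hy2⟩ := up_of_down (hg (lev u) (by omega)) (v := u) (v' := u') rfl (by omega)
      hne.symm hv hu'
    refine ⟨u', hne, hu', ?_⟩
    by_cases h5 : y = x
    · subst h5
      exact absurd (dc_unique hx1 hy2 hux) hne
    · by_cases h6 : y = x'
      · exact h6 ▸ hy2
      · exact absurd (uc_three H hux hux' hy1 hxx.symm (Ne.symm h5) (Ne.symm h6)) id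
  obtain ⟨v, hv⟩ := Finset.card_pos.mp (by omega : 0 < (dc u).card)
  rw [mem_dc] at hv
  obtain ⟨v', hv', hvv⟩ := exists_other_dc (z := v) hu2
  obtain ⟨u1, h1, h2, h3⟩ := key v hv
  obtain ⟨u2, h4, h5, h6⟩ := key v' hv'
  have h7 : u1 = u2 := by
    by_contra hne
    exact dc_three H hux' h3 h6 h1.symm h4.symm hne
  subst h7
  -- two common lower covers, one common upper cover
  have l1 := lev_cov H hux'
  have l2 := lev_cov H h3
  have h8 := hg (lev u) (by omega) u u1 rfl (by omega) h1.symm
  have h9 : 2 ≤ dcv u u1 := by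
    classical
    unfold dcv
    have h10 : ({v, v'} : Finset P) ⊆ univ.filter (fun y : P => y ⋖ u ∧ y ⋖ u1) := by
      intro y hy
      simp only [mem_insert, mem_singleton] at hy
      simp only [mem_filter, mem_univ, true_and]
      rcases hy with rfl | rfl
      · exact ⟨hv, h2⟩
      · exact ⟨hv', h5⟩
    have h11 := Finset.card_le_card h10
    rwa [Finset.card_pair hvv.symm] at h11
  obtain ⟨y, y', hyy, a1, a2, a3, a4⟩ := two_le_ucv (by omega : 2 ≤ ucv u u1)
  have b1 : ∀ y, u ⋖ y → u1 ⋖ y → y = x' := by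
    intro y c1 c2
    by_contra c3
    by_cases c4 : y = x
    · subst c4
      exact h1 (dc_unique hx1 c2 hux)
    · exact uc_three H hux hux' c1 hxx.symm (Ne.symm c4) (Ne.symm c3)
  exact hyy ((b1 y a1 a2).trans (b1 y' a3 a4).symm)

/-- one step: `PD` -/
lemma PD_step (H : Gr P r) {i : ℕ} (hg0 : Good P 0) (hg : Good P i) (hi : i + 1 ≤ r)
    (hPU : PU P i = ∅) : PD P i = ∅ := by
  rcases Nat.eq_zero_or_pos i with h0 | h0
  · subst h0
    rw [Finset.eq_empty_iff_forall_notMem]
    intro z hz
    rw [mem_PD] at hz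
    obtain ⟨hzl, -, w, hzw, hw2⟩ := hz
    have lw := lev_cov H hzw
    have := uc_level_one H (x := w) (by omega)
    omega
  · have h1 := good_card H h0 hi hg
    rw [hPU, Finset.card_empty, Finset.card_eq_zero] at h1
    exact h1

theorem Pre.main {j : ℕ} (h : Pre P r j) :
    ∀ i, (i ≤ j → PU P i = ∅) ∧ (i < j → PD P i = ∅) := by
  intro i
  induction i using Nat.strong_induction_on with
  | _ i ih =>
    have h1 : i ≤ j → PU P i = ∅ := fun hi =>
      PU_step h.H h.two h.good hi fun l hl hl2 => (ih l hl).2 hl2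
    have hr := h.hr
    exact ⟨h1, fun hi => PD_step h.H (h.good 0 (by omega)) (h.good i hi) (by omega) (h1 hi.le)⟩

theorem Pre.PD_empty {j : ℕ} (h : Pre P r j) {i : ℕ} (hi : i < j) : PD P i = ∅ := (h.main i).2 hi

theorem Pre.PU_empty {j : ℕ} (h : Pre P r j) {i : ℕ} (hi : i ≤ j) : PU P i = ∅ := (h.main i).1 hi

theorem Pre.ucv_le {j : ℕ} (h : Pre P r j) : ∀ (k : ℕ) (v v' : P), k ≤ j → lev v = k → v ≠ v' →
    ucv v v' ≤ 1 := by
  classical
  intro k
  induction k with
  | zero =>
    intro v v' _ hv hne
    by_contra hcon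
    obtain ⟨y, y', -, h1, -, -, -⟩ := two_le_ucv (by omega : 2 ≤ ucv v v')
    have := (h.H.covBy_iff.mp h1).2
    omega
  | succ k ih =>
    intro v v' hk hv hne
    by_contra hcon
    obtain ⟨y, y', hyy, h1, h2, h3, h4⟩ := two_le_ucv (by omega : 2 ≤ ucv v v')
    have hl := (h.H.covBy_iff.mp h1).2
    have hl' := (h.H.covBy_iff.mp h3).2
    have h5 := ih y y' (by omega) (by omega) hyy
    rw [h.good k (by omega) y y' (by omega) (by omega) hyy] at h5
    unfold dcv at h5
    have h6 : ({v, v'} : Finset P) ⊆ univ.filter (fun w : P => w ⋖ y ∧ w ⋖ y') := by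
      intro z hz
      simp only [mem_insert, mem_singleton] at hz
      simp only [mem_filter, mem_univ, true_and]
      rcases hz with rfl | rfl
      · exact ⟨h1, h3⟩
      · exact ⟨h2, h4⟩
    have h7 := Finset.card_le_card h6
    rw [Finset.card_pair hne] at h7
    omega

/-- the lower covers of a double-up element of level `j` are double-up -/
theorem Pre.low_dbl {j : ℕ} (h : Pre P r j) {v z : P} (hv : lev v = j) (h2 : (uc v).card = 2)
    (hz : z ⋖ v) : (uc z).card = 2 := by
  have lz := lev_cov h.H hz
  rcases uc_card_cases h.H (x := z) (by omega) with h1 | h1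
  · exfalso
    have hj := h.hj
    have h3 : z ∈ PD P (j - 1) := mem_PD.mpr ⟨by omega, h1, v, hz, h2⟩
    rw [h.PD_empty (by omega)] at h3
    exact absurd h3 (Finset.notMem_empty _)
  · exact h1

/-- single-up elements are straight -/
theorem Pre.straight {j : ℕ} (h : Pre P r j) {v y : P} (hv : lev v ≤ j) (h1 : (uc v).card = 1)
    (hy : v ⋖ y) (hy1 : 1 ≤ lev y) : (uc y).card = 1 := by
  have ly := lev_cov h.H hy
  rcases uc_card_cases h.H hy1 with h2 | h2
  · exact h2
  · exfalso
    have h3 : v ∈ PD P (lev v - 2) := mem_PD.mpr ⟨by omega, h1, y, hy, h2⟩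
    rw [h.PD_empty (by omega)] at h3
    exact absurd h3 (Finset.notMem_empty _)

/-- the upper cover of a single-up element is double-down -/
theorem Pre.top_dbl {j : ℕ} (h : Pre P r j) {v y : P} (hv : lev v ≤ j) (h1 : (uc v).card = 1)
    (hy : v ⋖ y) : (dc y).card = 2 := by
  have ly := lev_cov h.H hy
  exact top_dbl_aux h.H h.two h.good (lev v) (by omega) hv
    (fun i hi => h.PD_empty (by omega)) v y rfl h1 hy

end Pool.Agent.GaussPoset.Win
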