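import Pool.Agent.W_448g_h5.GB

/-! The double elements of level `j + 1`, `j` the first bad level; the form of (31). -/

namespace Pool.Agent.GaussPoset.Win

set_option linter.unusedSectionVars false

open Finset

universe u

variable {P : Type u} [Fintype P] [PartialOrder P] [DecidableEq P] {r : ℕ}

lemma two_le_lev (H : Gr P r) {v : P} (h2 : (uc v).card = 2) : 2 ≤ lev v := by
  obtain ⟨y, hy⟩ := Finset.card_pos.mp (by omega : 0 < (uc v).card)
  have l1 := lev_cov H (mem_uc.mp hy)
  by_contra hcon
  have := uc_level_one H (x := v) (by omega)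
  omega

lemma sts_of (H : Gr P r) {i : ℕ} {z v a : P} (hz : lev z = i + 2) (h1 : z ⋖ v) (h2 : v ⋖ a) :
    a ∈ sts i z := (mem_sts_iff H hz).2 ⟨v, mem_uc.mpr h1, mem_uc.mpr h2⟩

lemma stD_of (H : Gr P r) {i : ℕ} {x v a : P} (hx : lev x + 2 = i) (h1 : v ⋖ x) (h2 : a ⋖ v) :
    a ∈ stD i x := (mem_stD_iff H hx).2 ⟨v, mem_dc.mpr h1, mem_dc.mpr h2⟩

lemma three_le_up {i : ℕ} {z a b c : P} (ha : a ∈ sts i z) (hb : b ∈ sts i z)
    (hc : c ∈ sts i z) (hab : a ≠ b) (hac : a ≠ c) (hbc : b ≠ c) : 3 ≤ up i z := by
  rw [← card_sts]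
  have h2 : ({a, b, c} : Finset P) ⊆ sts i z := by
    intro y hy
    simp only [mem_insert, mem_singleton] at hy
    rcases hy with rfl | rfl | rfl <;> assumption
  have h3 := Finset.card_le_card h2
  rwa [Finset.card_eq_three.mpr ⟨a, b, c, hab, hac, hbc, rfl⟩] at h3

lemma three_le_dn {i : ℕ} {z a b c : P} (ha : a ∈ stD i z) (hb : b ∈ stD i z)
    (hc : c ∈ stD i z) (hab : a ≠ b) (hac : a ≠ c) (hbc : b ≠ c) : 3 ≤ dn i z := by
  rw [← card_stD]
  have h2 : ({a, b, c} : Finset P) ⊆ stD i z := by
    intro y hy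
    simp only [mem_insert, mem_singleton] at hy
    rcases hy with rfl | rfl | rfl <;> assumption
  have h3 := Finset.card_le_card h2
  rwa [Finset.card_eq_three.mpr ⟨a, b, c, hab, hac, hbc, rfl⟩] at h3

/-- a double element below a double-up element -/
lemma Pre.no_mixed {j : ℕ} (h : Pre P r j) {z v v' : P} (hz : lev z = j + 1) (h1 : z ⋖ v)
    (h2 : z ⋖ v') (hne : v ≠ v') (h3 : (uc v).card = 2) (h0 : ucv v v' = 0) : False := by
  have H := h.H
  have l1 := lev_cov H h1
  have l2 := lev_cov H h2
  have hj2 := two_le_lev H h3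
  have hr := h.hr
  obtain ⟨a, ha⟩ := Finset.card_pos.mp (by omega : 0 < (uc v).card)
  rw [mem_uc] at ha
  obtain ⟨b, hb, hba⟩ := exists_other_uc (y := a) h3
  obtain ⟨c, hc⟩ := uc_nonempty H (x := v') (by omega)
  rw [mem_uc] at hc
  have hca : c ≠ a := by
    rintro rfl
    have := ucv_pos ha hc
    omega
  have hcb : c ≠ b := by
    rintro rfl
    have := ucv_pos hb hc
    omega
  have hz' : lev z = (j - 1) + 2 := by omega
  have hgood := h.good (j - 1) (by omega)
  have k1 := (I32 H (i := j - 1) (by omega) (by omega) hgood).1 z hz'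
  have sa := sts_of H hz' h1 ha
  have sb := sts_of H hz' h1 hb
  have sc := sts_of H hz' h2 hc
  have k2 := three_le_up sa sb sc hba.symm hca.symm hcb.symm
  have hD : (PD P (j - 1)).card ≤ 1 := by rw [h.PD_empty (by omega)]; simp
  have hU : (PU P (j - 1)).card ≤ 1 := by rw [h.PU_empty (by omega)]; simp
  obtain ⟨y, -, hy⟩ := (I42 H (i := j - 1) (by omega) (by omega) hgood hD hU).1 z hz' (by omega)
  have := ucv_pos (hy v h1) (hy v' h2)
  omega

theorem Pre.dbl_cases {j : ℕ} (h : Pre P r j) {z v v' : P} (hz : lev z = j + 1) (h1 : z ⋖ v)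
    (h2 : z ⋖ v') (hne : v ≠ v') :
    ucv v v' = 1 ∨ ((uc v).card = 1 ∧ (uc v').card = 1 ∧ ucv v v' = 0) := by
  have H := h.H
  have l1 := lev_cov H h1
  have l2 := lev_cov H h2
  have hj := h.hj
  have k1 := h.ucv_le j v v' le_rfl (by omega) hne
  rcases Nat.eq_zero_or_pos (ucv v v') with h0 | h0
  · right
    refine ⟨?_, ?_, h0⟩
    · rcases uc_card_cases H (x := v) (by omega) with h3 | h3
      · exact h3
      · exact (h.no_mixed hz h1 h2 hne h3 h0).elim
    · rcases uc_card_cases H (x := v') (by omega) with h3 | h3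
      · exact h3
      · exact (h.no_mixed hz h2 h1 hne.symm h3 (by
          have : ucv v' v = ucv v v' := by
            classical
            unfold ucv
            congr 1
            ext y
            simp only [mem_filter, mem_univ, true_and]
            tauto
          rw [this]; exact h0)).elim
  · left
    omega

open Classical in
/-- double elements of level `j + 1` below two double-up elements -/
noncomputable def ZI (P : Type u) [Fintype P] [PartialOrder P] [DecidableEq P] (j : ℕ) :
    Finset P := univ.filter (fun z : P => lev z = j + 1 ∧ (uc z).card = 2 ∧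
      ∀ v ∈ uc z, (uc v).card = 2)

open Classical in
/-- double-down elements of level `j - 1` above two double-up elements -/
noncomputable def YI (P : Type u) [Fintype P] [PartialOrder P] [DecidableEq P] (j : ℕ) :
    Finset P := univ.filter (fun y : P => lev y + 1 = j ∧ (dc y).card = 2 ∧
      ∀ v ∈ dc y, (uc v).card = 2)

lemma mem_ZI {j : ℕ} {z : P} : z ∈ ZI P j ↔
    lev z = j + 1 ∧ (uc z).card = 2 ∧ ∀ v ∈ uc z, (uc v).card = 2 := by
  unfold ZI
  rw [mem_filter]
  simp only [mem_univ, true_and]

lemma mem_YI {j : ℕ} {y : P} : y ∈ YI P j ↔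
    lev y + 1 = j ∧ (dc y).card = 2 ∧ ∀ v ∈ dc y, (uc v).card = 2 := by
  unfold YI
  rw [mem_filter]
  simp only [mem_univ, true_and]

open Classical in
lemma Pre.ZI_eq {j : ℕ} (h : Pre P r j) (hj : 2 ≤ j) :
    ZI P j = univ.filter (fun z : P => lev z = (j - 1) + 2 ∧ up (j - 1) z = 3) := by
  have H := h.H
  have hr := h.hr
  have hgood := h.good (j - 1) (by omega)
  have hD : (PD P (j - 1)).card ≤ 1 := by rw [h.PD_empty (by omega)]; simp
  have hU : (PU P (j - 1)).card ≤ 1 := by rw [h.PU_empty (by omega)]; simp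
  have I42' := (I42 H (i := j - 1) (by omega) (by omega) hgood hD hU).1
  have I32' := (I32 H (i := j - 1) (by omega) (by omega) hgood).1
  ext z
  rw [mem_ZI, mem_filter]
  simp only [mem_univ, true_and]
  constructor
  · rintro ⟨hz, hz2, hall⟩
    have hz' : lev z = (j - 1) + 2 := by omega
    refine ⟨hz', ?_⟩
    obtain ⟨v, hv⟩ := Finset.card_pos.mp (by omega : 0 < (uc z).card)
    have hv2 := hall v hv
    rw [mem_uc] at hv
    obtain ⟨v', hv', hne⟩ := exists_other_uc (y := v) hz2
    have hv2' := hall v' (mem_uc.mpr hv')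
    have l1 := lev_cov H hv
    rcases h.dbl_cases hz hv hv' hne.symm with h1 | ⟨h1, -, -⟩
    · obtain ⟨a, ha, ha'⟩ := exists_of_ucv (by omega : 0 < ucv v v')
      obtain ⟨b, hb, hba⟩ := exists_other_uc (y := a) hv2
      obtain ⟨c, hc, hca⟩ := exists_other_uc (y := a) hv2'
      have hbc : b ≠ c := by
        rintro rfl
        have h2 : 2 ≤ ucv v v' := by
          unfold ucv
          have h3 : ({a, b} : Finset P) ⊆ univ.filter (fun y : P => v ⋖ y ∧ v' ⋖ y) := by
            intro y hy
            simp only [mem_insert, mem_singleton] at hy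
            simp only [mem_filter, mem_univ, true_and]
            rcases hy with rfl | rfl
            · exact ⟨ha, ha'⟩
            · exact ⟨hb, hc⟩
          have h4 := Finset.card_le_card h3
          rwa [Finset.card_pair hba.symm] at h4
        omega
      have k1 := I32' z hz'
      have k2 := three_le_up (sts_of H hz' hv ha) (sts_of H hz' hv hb) (sts_of H hz' hv' hc)
        hba.symm hca.symm hbc
      omega
    · omega
  · rintro ⟨hz', h3⟩
    have hz : lev z = j + 1 := by omega
    have hz2 : (uc z).card = 2 := by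
      have h4 := (up_le_four H (i := j - 1) hz').1
      have h5 := uc_card_le H z
      omega
    refine ⟨hz, hz2, ?_⟩
    obtain ⟨y, -, hy⟩ := I42' z hz' h3
    intro v hv
    rw [mem_uc] at hv
    have l1 := lev_cov H hv
    rcases uc_card_cases H (x := v) (by omega) with h4 | h4
    · exfalso
      obtain ⟨v', hv', hne⟩ := exists_other_uc (y := v) hz2
      have h5 : sts (j - 1) z ⊆ uc v' := by
        intro a ha
        obtain ⟨w, hw1, hw2⟩ := (mem_sts_iff H hz').1 ha
        rw [mem_uc] at hw1 hw2
        by_cases hwv : w = v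
        · subst hwv
          have := uc_unique h4 hw2 (hy w hw1)
          rw [this]
          exact mem_uc.mpr (hy v' hv')
        · by_cases hwv' : w = v'
          · subst hwv'
            exact mem_uc.mpr hw2
          · exact (uc_three H hv hv' hw1 hne.symm (Ne.symm hwv) (Ne.symm hwv')).elim
      have h6 := Finset.card_le_card h5
      rw [card_sts, h3] at h6
      have h7 := uc_card_le H v'
      omega
    · exact h4

end Pool.Agent.GaussPoset.Win
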