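import Pool.Agent.W_448g_h5.GC

/-! The form of (31): as many double elements below two double-up elements at level `j + 1` as
elements of level `j - 1` above two double-up elements. -/

namespace Pool.Agent.GaussPoset.Win

set_option linter.unusedSectionVars false

open Finset

universe u

variable {P : Type u} [Fintype P] [PartialOrder P] [DecidableEq P] {r : ℕ}

lemma two_le_ucv' {v v' a b : P} (hab : a ≠ b) (h1 : v ⋖ a) (h2 : v' ⋖ a) (h3 : v ⋖ b)
    (h4 : v' ⋖ b) : 2 ≤ ucv v v' := by
  classical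
  unfold ucv
  have h5 : ({a, b} : Finset P) ⊆ univ.filter (fun y : P => v ⋖ y ∧ v' ⋖ y) := by
    intro y hy
    simp only [mem_insert, mem_singleton] at hy
    simp only [mem_filter, mem_univ, true_and]
    rcases hy with rfl | rfl
    · exact ⟨h1, h2⟩
    · exact ⟨h3, h4⟩
  have h6 := Finset.card_le_card h5
  rwa [Finset.card_pair hab] at h6

lemma two_le_dcv' {v v' a b : P} (hab : a ≠ b) (h1 : a ⋖ v) (h2 : a ⋖ v') (h3 : b ⋖ v)
    (h4 : b ⋖ v') : 2 ≤ dcv v v' := by
  classical
  unfold dcv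
  have h5 : ({a, b} : Finset P) ⊆ univ.filter (fun y : P => y ⋖ v ∧ y ⋖ v') := by
    intro y hy
    simp only [mem_insert, mem_singleton] at hy
    simp only [mem_filter, mem_univ, true_and]
    rcases hy with rfl | rfl
    · exact ⟨h1, h2⟩
    · exact ⟨h3, h4⟩
  have h6 := Finset.card_le_card h5
  rwa [Finset.card_pair hab] at h6

open Classical in
/-- the elements of level `j - 3` above three elements of level `j - 1` -/
noncomputable def XI (P : Type u) [Fintype P] [PartialOrder P] [DecidableEq P] (j : ℕ) :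
    Finset P := univ.filter (fun x : P => lev x + 2 = j - 1 ∧ dn (j - 1) x = 3)

lemma mem_XI {j : ℕ} {x : P} : x ∈ XI P j ↔ lev x + 2 = j - 1 ∧ dn (j - 1) x = 3 := by
  unfold XI
  rw [mem_filter]
  simp only [mem_univ, true_and]

/-- `y` is below both lower covers of `x` -/
def Bel (y x : P) : Prop := ∀ u, u ⋖ x → y ⋖ u

lemma Pre.exists_XI {j : ℕ} (h : Pre P r j) (hj : 2 ≤ j) {y : P} (hy : y ∈ YI P j) :
    ∃ x ∈ XI P j, Bel y x := by
  have H := h.H
  have hr := h.hr
  rw [mem_YI] at hy
  obtain ⟨ly, hy2, hall⟩ := hy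
  obtain ⟨v, hv⟩ := Finset.card_pos.mp (by omega : 0 < (dc y).card)
  have hv2 := hall v hv
  rw [mem_dc] at hv
  obtain ⟨v', hv', hne⟩ := exists_other_dc (z := v) hy2
  have hv2' := hall v' (mem_dc.mpr hv')
  have l1 := lev_cov H hv
  have l2 := lev_cov H hv'
  obtain ⟨y1, hy1, hyy1⟩ := exists_other_uc (y := y) hv2
  obtain ⟨y2, hy2', hyy2⟩ := exists_other_uc (y := y) hv2'
  have l3 := lev_cov H hy1
  have l4 := lev_cov H hy2'
  have h12 : y1 ≠ y2 := by
    rintro rfl
    have k1 := two_le_ucv' hyy1.symm hv hv' hy1 hy2'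
    have k2 := h.ucv_le j v v' le_rfl (by omega) hne.symm
    omega
  have hg1 := h.good (j - 1) (by omega)
  obtain ⟨u, hu, hu1⟩ := up_of_down hg1 (v := y) (v' := y1) (by omega) (by omega) hyy1.symm hv hy1
  obtain ⟨u', hu', hu2⟩ := up_of_down hg1 (v := y) (v' := y2) (by omega) (by omega) hyy2.symm hv'
    hy2'
  have huu : u ≠ u' := by
    rintro rfl
    exact dc_three H hu hu1 hu2 hyy1.symm hyy2.symm h12
  have l5 := lev_cov H hu
  have l6 := lev_cov H hu'
  have hg2 := h.good (j - 2) (by omega)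
  obtain ⟨x, hx, hx'⟩ := up_of_down hg2 (v := u) (v' := u') (by omega) (by omega) huu hu hu'
  have l7 := lev_cov H hx
  have hxl : lev x + 2 = j - 1 := by omega
  refine ⟨x, mem_XI.mpr ⟨hxl, ?_⟩, ?_⟩
  · have k1 := (I32 H (i := j - 1) (by omega) (by omega) hg1).2 x hxl
    have k2 := three_le_dn (stD_of H hxl hx hu) (stD_of H hxl hx hu1) (stD_of H hxl hx' hu2)
      hyy1.symm hyy2.symm h12
    omega
  · intro w hw
    by_cases hwu : w = u
    · exact hwu ▸ hu
    · by_cases hwu' : w = u'
      · exact hwu' ▸ hu'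
      · exact (dc_three H hx hx' hw huu (Ne.symm hwu) (Ne.symm hwu')).elim

lemma Pre.exists_YI {j : ℕ} (h : Pre P r j) (hj : 2 ≤ j) {x : P} (hx : x ∈ XI P j) :
    ∃ y ∈ YI P j, Bel y x := by
  classical
  have H := h.H
  have hr := h.hr
  rw [mem_XI] at hx
  obtain ⟨lx, hx3⟩ := hx
  have hg1 := h.good (j - 1) (by omega)
  have hD : (PD P (j - 1)).card ≤ 1 := by rw [h.PD_empty (by omega)]; simp
  have hU : (PU P (j - 1)).card ≤ 1 := by rw [h.PU_empty (by omega)]; simp
  obtain ⟨y, ly, hy⟩ := (I42 H (i := j - 1) (by omega) (by omega) hg1 hD hU).2.1 x lx hx3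
  refine ⟨y, ?_, hy⟩
  have hx2 : (dc x).card = 2 := by
    have h4 : stD (j - 1) x ⊆ (dc x).biUnion dc := by
      intro v hv
      obtain ⟨w, hw, hv2⟩ := (mem_stD_iff H lx).1 hv
      exact Finset.mem_biUnion.2 ⟨w, hw, hv2⟩
    have h5 : (stD (j - 1) x).card ≤ (dc x).card * 2 := (Finset.card_le_card h4).trans
      (Finset.card_biUnion_le_card_mul _ _ _ (fun w _ => dc_card_le H w))
    rw [card_stD, hx3] at h5
    have h6 := dc_card_le H x
    omega
  obtain ⟨u, hu⟩ := Finset.card_pos.mp (by omega : 0 < (dc x).card)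
  rw [mem_dc] at hu
  obtain ⟨u', hu', hne⟩ := exists_other_dc (z := u) hx2
  have only : ∀ w, w ⋖ x → w = u ∨ w = u' := by
    intro w hw
    by_contra hcon
    push Not at hcon
    exact dc_three H hu hu' hw hne.symm (Ne.symm hcon.1) (Ne.symm hcon.2)
  have hyu := hy u hu
  have hyu' := hy u' hu'
  -- the other lower covers
  have key : ∀ w w', w ⋖ x → w' ⋖ x → (∀ t, t ⋖ x → t = w ∨ t = w') →
      ∃ y1, y1 ⋖ w ∧ y1 ≠ y ∧ ¬ y1 ⋖ w' := by
    intro w w' hw hw' hon
    by_contra hcon
    push Not at hcon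
    have h4 : stD (j - 1) x ⊆ dc w' := by
      intro a ha
      obtain ⟨t, ht1, ht2⟩ := (mem_stD_iff H lx).1 ha
      rw [mem_dc] at ht1 ht2
      rw [mem_dc]
      rcases hon t ht1 with rfl | rfl
      · by_cases hay : a = y
        · subst hay
          exact hy w' hw'
        · exact hcon a ht2 hay
      · exact ht2
    have h5 := Finset.card_le_card h4
    rw [card_stD, hx3] at h5
    have h6 := dc_card_le H w'
    omega
  obtain ⟨y1, h1, h1y, h1n⟩ := key u u' hu hu' only
  obtain ⟨y2, h2, h2y, h2n⟩ := key u' u hu' hu fun t ht => (only t ht).symm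
  have h12 : y1 ≠ y2 := by
    rintro rfl
    exact h1n h2
  have l1 := lev_cov H h1
  have l2 := lev_cov H h2
  have l3 := lev_cov H hu
  have l4 := lev_cov H hu'
  obtain ⟨v, hv, hv1⟩ := down_of_up hg1 (v := y) (v' := y1) ly (by omega) h1y.symm hyu h1
  obtain ⟨v', hv', hv2⟩ := down_of_up hg1 (v := y) (v' := y2) ly (by omega) h2y.symm hyu' h2
  have hvv : v ≠ v' := by
    rintro rfl
    exact uc_three H hv hv1 hv2 h1y.symm h2y.symm h12
  have two : ∀ {t a b : P}, t ⋖ a → t ⋖ b → a ≠ b → (uc t).card = 2 := by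
    intro t a b ha hb hab
    refine le_antisymm (uc_card_le H t) ?_
    have h7 : ({a, b} : Finset P) ⊆ uc t := by
      intro s hs
      simp only [mem_insert, mem_singleton] at hs
      rcases hs with rfl | rfl
      · exact mem_uc.mpr ha
      · exact mem_uc.mpr hb
    have h8 := Finset.card_le_card h7
    rwa [Finset.card_pair hab] at h8
  rw [mem_YI]
  refine ⟨by omega, ?_, ?_⟩
  · refine le_antisymm (dc_card_le H y) ?_
    have h7 : ({v, v'} : Finset P) ⊆ dc y := by
      intro s hs
      simp only [mem_insert, mem_singleton] at hs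
      rcases hs with rfl | rfl
      · exact mem_dc.mpr hv
      · exact mem_dc.mpr hv'
    have h8 := Finset.card_le_card h7
    rwa [Finset.card_pair hvv] at h8
  · intro t ht
    rw [mem_dc] at ht
    by_cases h3 : t = v
    · subst h3
      exact two hv hv1 h1y.symm
    · by_cases h4 : t = v'
      · subst h4
        exact two hv' hv2 h2y.symm
      · exact (dc_three H hv hv' ht hvv (Ne.symm h3) (Ne.symm h4)).elim

lemma two_of_XI (H : Gr P r) {j : ℕ} {x : P} (hx : x ∈ XI P j) : (dc x).card = 2 := by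
  classical
  rw [mem_XI] at hx
  have h4 : stD (j - 1) x ⊆ (dc x).biUnion dc := by
    intro v hv
    obtain ⟨w, hw, hv2⟩ := (mem_stD_iff H hx.1).1 hv
    exact Finset.mem_biUnion.2 ⟨w, hw, hv2⟩
  have h5 : (stD (j - 1) x).card ≤ (dc x).card * 2 := (Finset.card_le_card h4).trans
    (Finset.card_biUnion_le_card_mul _ _ _ (fun w _ => dc_card_le H w))
  rw [card_stD, hx.2] at h5
  have h6 := dc_card_le H x
  omega

theorem Pre.YI_card {j : ℕ} (h : Pre P r j) (hj : 2 ≤ j) : (YI P j).card = (XI P j).card := by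
  have H := h.H
  apply le_antisymm
  · have hex : ∀ y ∈ YI P j, ∃ x ∈ XI P j, Bel y x := fun y hy => h.exists_XI hj hy
    choose! f hf hf2 using hex
    refine Finset.card_le_card_of_injOn f (fun y hy => hf y hy) ?_
    intro y hy y' hy' heq
    by_contra hne
    have hx2 := two_of_XI H (hf y hy)
    obtain ⟨u, hu⟩ := Finset.card_pos.mp (by omega : 0 < (dc (f y)).card)
    rw [mem_dc] at hu
    obtain ⟨u', hu', huu⟩ := exists_other_dc (z := u) hx2
    have a1 := hf2 y hy u hu
    have a2 := hf2 y hy u' hu'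
    have a3 : y' ⋖ u := hf2 y' hy' u (heq ▸ hu)
    have a4 : y' ⋖ u' := hf2 y' hy' u' (heq ▸ hu')
    have k1 := two_le_dcv' hne a1 a2 a3 a4
    have l1 := lev_cov H hu
    have l2 := lev_cov H hu'
    have l3 := (mem_XI.mp (hf y hy)).1
    rw [← h.good (lev u) (by omega) u u' rfl (by omega) huu.symm] at k1
    have k2 := h.ucv_le (lev u) u u' (by omega) rfl huu.symm
    omega
  · have hex : ∀ x ∈ XI P j, ∃ y ∈ YI P j, Bel y x := fun x hx => h.exists_YI hj hx
    choose! g hg hg2 using hex
    refine Finset.card_le_card_of_injOn g (fun x hx => hg x hx) ?_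
    intro x hx x' hx' heq
    by_contra hne
    have hx2 := two_of_XI H hx
    have hx2' := two_of_XI H hx'
    obtain ⟨u, hu⟩ := Finset.card_pos.mp (by omega : 0 < (dc x).card)
    rw [mem_dc] at hu
    obtain ⟨u', hu', huu⟩ := exists_other_dc (z := u) hx2
    obtain ⟨w, hw⟩ := Finset.card_pos.mp (by omega : 0 < (dc x').card)
    rw [mem_dc] at hw
    obtain ⟨w', hw', hww⟩ := exists_other_dc (z := w) hx2'
    have a1 := hg2 x hx u hu
    have a2 := hg2 x hx u' hu'
    have a3 : g x ⋖ w := by rw [heq]; exact hg2 x' hx' w hw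
    have a4 : g x ⋖ w' := by rw [heq]; exact hg2 x' hx' w' hw'
    have hon : ∀ t, g x ⋖ t → t = u ∨ t = u' := by
      intro t ht
      by_contra hcon
      push Not at hcon
      exact uc_three H a1 a2 ht huu.symm (Ne.symm hcon.1) (Ne.symm hcon.2)
    have hu2 : u ⋖ x' ∧ u' ⋖ x' := by
      rcases hon w a3 with rfl | rfl <;> rcases hon w' a4 with rfl | rfl
      · exact absurd rfl hww
      · exact ⟨hw, hw'⟩
      · exact ⟨hw', hw⟩
      · exact absurd rfl hww
    have k1 := two_le_ucv' hne hu hu' hu2.1 hu2.2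
    have l1 := lev_cov H hu
    have l2 := lev_cov H hu'
    have l3 := (mem_XI.mp hx).1
    have k2 := h.ucv_le (lev u) u u' (by omega) rfl huu.symm
    omega

/-- (31) -/
theorem Pre.inner {j : ℕ} (h : Pre P r j) : (ZI P j).card = (YI P j).card := by
  classical
  have H := h.H
  have hr := h.hr
  rcases Nat.lt_or_ge j 2 with hj | hj
  · have hj1 := h.hj
    have e1 : ZI P j = ∅ := by
      rw [Finset.eq_empty_iff_forall_notMem]
      intro z hz
      rw [mem_ZI] at hz
      obtain ⟨v, hv⟩ := Finset.card_pos.mp (by omega : 0 < (uc z).card)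
      have h1 := hz.2.2 v hv
      have h2 := two_le_lev H h1
      have h3 := lev_uc H hv
      omega
    have e2 : YI P j = ∅ := by
      rw [Finset.eq_empty_iff_forall_notMem]
      intro y hy
      rw [mem_YI] at hy
      obtain ⟨v, hv⟩ := Finset.card_pos.mp (by omega : 0 < (dc y).card)
      have h1 := hy.2.2 v hv
      have h2 := two_le_lev H h1
      have h3 := lev_dc H hv
      omega
    rw [e1, e2]
  · rw [h.YI_card hj, h.ZI_eq hj]
    have h1 := I31 H (i := j - 1) (by omega) (by omega) (h.good (j - 1) (by omega))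
      (h.PD_empty (by omega)) (h.PU_empty (by omega))
    rw [XI]
    convert h1 using 2

end Pool.Agent.GaussPoset.Win
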