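import Pool.Agent.W_448g_h5.GD
import Pool.Agent.W_448win_h16.FinB

/-! Assembly: if the first bad level never exists the poset is a distributive lattice. -/

namespace Pool.Agent.GaussPoset.Win

set_option linter.unusedSectionVars false

open Finset OrderDual

universe u

variable {P : Type u} [Fintype P] [PartialOrder P] [DecidableEq P] {r : ℕ}

/-- the last level is good -/
theorem good_last (H : Gr P r) : Good P r := by
  have h1 := good_zero H.dual
  have h2 := Good_od H (i := r) le_rfl
  rw [Nat.sub_self] at h2
  exact h2.mp h1

/-- all levels are good if the step holds -/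
theorem good_of_step (H : Gr P r) (two : Two0 P) (step : ∀ j, Pre P r j → Good P j) :
    ∀ j, j ≤ r → Good P j := by
  intro j
  induction j using Nat.strong_induction_on with
  | _ j ih =>
    intro hj
    rcases Nat.eq_zero_or_pos j with h0 | h0
    · subst h0
      exact good_zero H
    · rcases Nat.lt_or_ge j r with h1 | h1
      · exact step j ⟨H, two, h0, h1, fun l hl => ih l hl (by omega)⟩
      · have : j = r := by omega
        subst this
        exact good_last H

theorem modl_of_step (H : Gr P r) (two : Two0 P) (step : ∀ j, Pre P r j → Good P j) : Modl P := by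
  intro v v' hne
  by_cases hl : lev v = lev v'
  · exact good_of_step H two step (lev v) (H.lev_le v) v v' rfl hl.symm hne
  · exact ucv_zero_of_lev H hl

/-- Gaussian poset, connected, every maximal element covers two elements -/
theorem distrib_of_step (hG : IsGaussian P) (hc : (SimpleGraph.hasse P).Connected)
    (two : ∀ x : P, (∀ y, ¬ x < y) → ∃ a b : P, a ≠ b ∧ a ⋖ x ∧ b ⋖ x)
    (step : ∀ r j, Pre P r j → Good P j) : IsDistribLatticeOrder P := by
  obtain ⟨r, H⟩ := gr_of_connected hG hc
  refine distrib_of_modl hG hc (modl_of_step H ?_ fun j h => step r j h)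
  intro x hx
  obtain ⟨a, b, hab, ha, hb⟩ := two x fun y hy => by
    have := lev_strictAnti hy
    omega
  refine le_antisymm (dc_card_le H x) ?_
  have h1 : ({a, b} : Finset P) ⊆ dc x := by
    intro y hy
    simp only [mem_insert, mem_singleton] at hy
    rcases hy with rfl | rfl
    · exact mem_dc.mpr ha
    · exact mem_dc.mpr hb
  have h2 := Finset.card_le_card h1
  rwa [Finset.card_pair hab] at h2

end Pool.Agent.GaussPoset.Win
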