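import Pool.Agent.W_448g_h5.GE
import Mathlib.Combinatorics.SimpleGraph.Hasse

/-! Both sides: every maximal element covers two elements, or every minimal element is covered by
two elements. -/

namespace Pool.Agent.GaussPoset.Win

set_option linter.unusedSectionVars false

open Finset OrderDual

universe u

theorem distrib_two_of_step
    (step : ∀ (Q : Type u) [Fintype Q] [PartialOrder Q] [DecidableEq Q] (r j : ℕ),
      Pre Q r j → Good Q j)
    (P : Type u) [Fintype P] [PartialOrder P] (hG : IsGaussian P)
    (hc : (SimpleGraph.hasse P).Connected)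
    (h : (∀ x : P, IsMax x → ∃ a b : P, a ≠ b ∧ a ⋖ x ∧ b ⋖ x) ∨
      (∀ x : P, IsMin x → ∃ a b : P, a ≠ b ∧ x ⋖ a ∧ x ⋖ b)) :
    IsDistribLatticeOrder P := by
  classical
  rcases h with h | h
  · refine distrib_of_step hG hc (fun x hx => h x ?_) fun r j hp => step P r j hp
    rw [isMax_iff_forall_not_lt]
    exact hx
  · refine distrib_of_dual (distrib_of_step (gauss_dual hG)
      ((SimpleGraph.hasseDualIso (α := P)).connected_iff.mpr hc) (fun x hx => ?_)
      fun r j hp => step Pᵒᵈ r j hp)
    have hm : IsMin (ofDual x) := by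
      rw [isMin_iff_forall_not_lt]
      intro y hy
      exact hx (toDual y) hy
    obtain ⟨a, b, hab, ha, hb⟩ := h (ofDual x) hm
    exact ⟨toDual a, toDual b, fun h => hab (toDual.injective h), ha.toDual, hb.toDual⟩

end Pool.Agent.GaussPoset.Win
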